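import Pool.Agent.PFJ.Stmts

/-!
# PFJ, row IMG: elementary facts on images of subspaces
-/

set_option autoImplicit false

open Matrix Filter Topology

namespace Pool.Agent.PFJ.H32

open Pool.Agent.PFS Pool.Agent.PFJ

variable {n : ℕ}

theorem inv_act (g : GL (Fin n) ℝ) (x : V n) : act g⁻¹ (act g x) = x := by
  show ((g⁻¹ : GL (Fin n) ℝ) : Matrix (Fin n) (Fin n) ℝ) *ᵥ
    ((g : Matrix (Fin n) (Fin n) ℝ) *ᵥ x) = x
  rw [Matrix.mulVec_mulVec, ← Units.val_mul, inv_mul_cancel, Units.val_one, Matrix.one_mulVec]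

theorem act_inj (g : GL (Fin n) ℝ) {x y : V n} (h : act g x = act g y) : x = y := by
  rw [← inv_act g x, h, inv_act]

theorem mul_act (g h : GL (Fin n) ℝ) (x : V n) : act (g * h) x = act g (act h x) := by
  show ((g * h : GL (Fin n) ℝ) : Matrix (Fin n) (Fin n) ℝ) *ᵥ x =
    (g : Matrix (Fin n) (Fin n) ℝ) *ᵥ ((h : Matrix (Fin n) (Fin n) ℝ) *ᵥ x)
  rw [Matrix.mulVec_mulVec, ← Units.val_mul]

theorem act_mem (g : GL (Fin n) ℝ) (L : Submodule ℝ (V n)) (x : V n) :
    act g x ∈ img g L ↔ x ∈ L := by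
  rw [mem_img]
  constructor
  · rintro ⟨y, hy, e⟩
    rw [← act_inj g e]
    exact hy
  · intro hx
    exact ⟨x, hx, rfl⟩

theorem img : ImgStmt := by
  intro n
  refine ⟨?_, ?_, ?_, ?_, ?_, ?_⟩
  · intro g L
    have hinj : Function.Injective (Matrix.mulVecLin (g : Matrix (Fin n) (Fin n) ℝ)) := by
      intro x y hxy
      exact act_inj g hxy
    exact (Submodule.equivMapOfInjective _ hinj L).finrank_eq.symm
  · intro g L x
    exact act_mem g L x
  · intro g h L
    ext x
    rw [mem_img, mem_img]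
    constructor
    · rintro ⟨y, hy, rfl⟩
      rw [mem_img] at hy
      obtain ⟨z, hz, rfl⟩ := hy
      exact ⟨z, hz, mul_act g h z⟩
    · rintro ⟨z, hz, rfl⟩
      exact ⟨act h z, (act_mem h L z).2 hz, (mul_act g h z).symm⟩
  · intro L
    ext x
    rw [mem_img]
    have e : ∀ y : V n, act (1 : GL (Fin n) ℝ) y = y := by
      intro y
      show ((1 : GL (Fin n) ℝ) : Matrix (Fin n) (Fin n) ℝ) *ᵥ y = y
      rw [Units.val_one, Matrix.one_mulVec]
    constructor
    · rintro ⟨y, hy, rfl⟩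
      rw [e]
      exact hy
    · intro hx
      exact ⟨x, hx, e x⟩
  · intro K g L
    exact Submodule.map_iSup _ _
  · intro g L N h
    ext x
    rw [← act_mem g L x, ← act_mem g N x, h]

end Pool.Agent.PFJ.H32
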